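import Pool.Agent.X176.FJ.Bool

/-!
# Group actions on functions with finitely many values

`C` is any class of groups with the closure properties `ClosedE C`, all of which are known for the
class of the groups that satisfy the fibered Farrell–Jones conjecture in A-theory with coefficients and
finite wreath products.

(1) Let the group `Q` act on a set `X` and on a group `G`, in any way. Let `FR X G` be the group of all
functions `X → G` with finitely many values; `Q` acts on it by `(q f)(x) = q (f (q⁻¹ x))`. Then the
semidirect product `FR X G ⋊ Q` is in `C` if and only if `G ⋊ Q` is in `C`. This includes, for instance,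
the semidirect products of the group of the locally constant functions on a compact space `X` with
values in `G` by any group of homeomorphisms of `X`; the restricted wreath products embed in the case of
the one-point compactification of a discrete space.

(2) HNN extensions of powers `G^J` along diagonal subgroups: let `a` and `b` be maps from the finite set
`J` to a set `K`, defined on parts of `J`, and onto. For `h : K → G` let `dg a h : J → G` be the function
with value `h (a j)` at `j`, and `1` where `a` is not defined. Then the HNN extension of `G^J` with a
stable letter which conjugates `dg a h` to `dg b h`, for all `h` (or for some `h`, which form a subgroup),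
is in `C` if `G` is. For instance, this holds for the HNN extension of `G × G` which conjugates
`(g, 1)` to `(g, g)`.
-/

set_option autoImplicit false

namespace Pool.Agent.Results.MP_59dd5b_al.FiniteRangeFunctions

open Pool.Agent.Y110.FJ Pool.Agent.X176.FJ

/-- Let `C` be a class of groups with the closure properties `ClosedE C`.

(1) If `Q` acts on a nonempty set `X` and on a group `G`, then the semidirect product of the group of all
functions `X → G` with finitely many values and `Q` is in `C` if and only if `G ⋊ Q` is in `C`.

(2) The HNN extensions of finite powers of a group `G` in `C` along diagonal subgroups are in `C`. -/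
theorem result (C : ∀ (G : Type) [Group G], Prop) (hC : ClosedE C) :
    (∀ (X G Q : Type) [Group G] [Group Q] [MulAction Q X] [Nonempty X] (θ : Q →* MulAut G),
      C (FR X G ⋊[frAct X θ] Q) ↔ C (G ⋊[θ] Q)) ∧
    (∀ (J K G : Type) [Group G] [Finite J] (a b : J → Option K),
      (∀ k, ∃ j, a j = some k) → (∀ k, ∃ j, b j = some k) →
      ∀ (A B : Subgroup (J → G)) (φ : A ≃* B),
        (∀ x : A, ∃ h : K → G, (x : J → G) = dg a h ∧ (φ x : J → G) = dg b h) →
        C G → C (HNNExtension (J → G) A B φ)) :=
  ⟨fun _ _ _ _ _ _ _ θ => fr_iff hC θ,
    fun _ _ _ _ _ a b ha hb A B φ hφ hG => diag_hnn hC hG a b ha hb A B φ hφ⟩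

end Pool.Agent.Results.MP_59dd5b_al.FiniteRangeFunctions
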