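import Pool.Agent.X176.FJ.LetG

/-!
# Groups of triangular transvections

`C` is any class of groups with the closure properties `ClosedE C`, all of which are known for the
class of the groups that satisfy the (fibered) Farrell–Jones conjecture for A-theory with coefficients
and finite wreath products.

Let `H` be a group, `T` a group of automorphisms of `H` and `X` a partially ordered set. `TVG r T` is
the group of the automorphisms of `H * F(X)` that move only finitely many letters, map `H` to itself by
an automorphism in `T` and each letter `x` to `u x v` with `u`, `v` in the subgroup generated by `H` and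
the letters smaller than `x` (and have an inverse of this form).
-/

set_option autoImplicit false

namespace Pool.Agent.Results.MP_59dd5b_al.TransvectionGroups

open Pool.Agent.Y110.FJ Pool.Agent.X176.FJ

/-- `H ⋊ T` -/
abbrev Hol (H : Type) [Group H] (T : Subgroup (MulAut H)) : Type := H ⋊[T.subtype] T

/-- the semidirect product of `H * F(X)` and the group `TVG r T` -/
abbrev HolX (H X : Type) [Group H] (r : X → X → Prop) [IsStrictOrder X r]
    (T : Subgroup (MulAut H)) : Type := HF H X ⋊[(TVG r T).subtype] TVG (H := H) r T

theorem result (C : ∀ (G : Type) [Group G], Prop) (hC : ClosedE C) (H X : Type) [Group H]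
    (r : X → X → Prop) [IsStrictOrder X r] (T : Subgroup (MulAut H)) :
    (C (HolX H X r T) ↔ C (Hol H T)) ∧
    (Nonempty X → (C (TVG (H := H) r T) ↔ C (Hol H T))) ∧
    (Nonempty X → (C (TVG (H := H) r ⊥) ↔ C H)) :=
  ⟨tvg_semi hC r T, fun ⟨x⟩ => ⟨of_tvg hC.base r T x, tvg_c hC r T⟩,
    fun ⟨x⟩ => ⟨fun h => (bot_iff hC.base).1 (of_tvg hC.base r ⊥ x h),
      fun h => tvg_c hC r ⊥ ((bot_iff hC.base).2 h)⟩⟩

end Pool.Agent.Results.MP_59dd5b_al.TransvectionGroups
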