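import Pool.Agent.X201.FJ.TG

/-!
# Extensions by graph products whose factors are permuted up to arbitrary twists

`C` is any class of groups with the closure properties `ClosedE C`, all of which are known for the
class of the groups that satisfy the A-theoretic Farrell–Jones conjecture with coefficients
and finite wreath products.

`IsGP Λ B` says that the group `M` is the graph product of its subgroups `B v`, `v ∈ V`, over the graph
`Λ` on the set `V`: `B u` and `B v` commute elementwise for adjacent `u` and `v`, the `B v` generate `M`, and
every family of homomorphisms of the `B v` to a group for which the images of `B u` and `B v` commute for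
adjacent `u` and `v` extends to `M`. For the complete graph this is the restricted direct product, for
the graph without edges the free product. The set `V` and the graph are arbitrary.
-/

set_option autoImplicit false

namespace Pool.Agent.Results.MP_59dd5b_al.TwistedGraphProducts

open Pool.Agent.Y110.FJ Pool.Agent.X201.FJ

/-- Let `C` be a class of groups with the closure properties `ClosedE C`. Let `N` be a normal subgroup
of the group `G` which is the graph product of subgroups `A v` over a graph `Λ`, and suppose that up to
inner automorphisms of `N` the conjugation by every element of `G` permutes the subgroups `A v`. If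
`G / N` is in `C` and if the subgroup generated by `A v` and `g` is in `C` for every `v` and every `g` in
`G` with `g (A v) g⁻¹ = A v`, then `G` is in `C`. -/
theorem result (C : ∀ (G : Type) [Group G], Prop) (hC : ClosedE C) (G V : Type) [Group G]
    (N : Subgroup G) [N.Normal] (Λ : SimpleGraph V) (A : V → Subgroup G) (hA : ∀ v, A v ≤ N)
    (hgp : IsGP Λ (fun v => (A v).subgroupOf N))
    (hperm : ∀ g : G, ∃ n ∈ N, ∃ π : Equiv.Perm V, ∀ v,
      (A v).map (MulAut.conj (n * g)).toMonoidHom = A (π v))
    (hQ : C (G ⧸ N))
    (hcyc : ∀ (v : V) (g : G), (A v).map (MulAut.conj g).toMonoidHom = A v →
      C (A v ⊔ Subgroup.zpowers g : Subgroup G)) : C G :=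
  twisted hC N Λ A hA hgp hperm hQ hcyc

end Pool.Agent.Results.MP_59dd5b_al.TwistedGraphProducts
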