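import Pool.Agent.X201.FJ.WL

/-!
# Wreath-like products

`C` is any class of groups with the closure properties `ClosedE C`, all of which are known for the
class of the groups that satisfy the Farrell–Jones conjecture (in A-theory, with coefficients and
finite wreath products).

`WreathLike π S`: `π : W →* B` is a homomorphism to a group `B` acting on the set `I`, the kernel of `π`
is the internal restricted direct product of the subgroups `S i`, `i ∈ I` (it is generated by them, they
commute with each other, and each meets the subgroup generated by the others trivially), and
`w S_i w⁻¹ = S_{π(w) i}`. The extension need not split.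
-/

set_option autoImplicit false

namespace Pool.Agent.Results.MP_59dd5b_al.WreathLikeProducts

open Pool.Agent.Y110.FJ Pool.Agent.X201.FJ

/-- Let `C` be a class of groups with the closure properties `ClosedE C`, let `B ∈ C` act on the set
`I`, and let `W` be a wreath-like product: an extension (with homomorphism `π` to `B`) whose kernel is
the internal restricted direct product of subgroups `S i` with `w S_i w⁻¹ ⊆ S_{π(w) i}`.

* `W` is in `C` if and only if for every `i` the preimage of the stabilizer of `i` has a homomorphism to
  a group in `C` which is injective on `S i`.
* If `B` acts freely on `I` (e.g. for regular wreath-like products), `W` is in `C` if and only if all the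
  groups `S i` are in `C`. -/
theorem result (C : ∀ (G : Type) [Group G], Prop) (hC : ClosedE C) (W B I : Type) [Group W]
    [Group B] [MulAction B I] (π : W →* B) (S : I → Subgroup W) (h : WreathLike π S) (hB : C B) :
    (C W ↔ ∀ i, ∃ (P : Type) (_ : Group P) (f : ↥((MulAction.stabilizer B i).comap π) →* P),
      C P ∧ ∀ x : ↥((MulAction.stabilizer B i).comap π), (x : W) ∈ S i → f x = 1 → x = 1) ∧
    ((∀ (b : B) (i : I), b • i = i → b = 1) → (C W ↔ ∀ i, C (S i))) := by
  have hsub : C W → ∀ K : Subgroup W, C K := fun hW K =>
    hC.base.of_injective _ _ K.subtype K.subtype_injective hW
  refine ⟨⟨fun hW i => ⟨W, inferInstance, Subgroup.subtype _, hW, ?_⟩,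
    fun hst => wreathLike hC h hB hst⟩, fun hfree => ⟨fun hW i => hsub hW (S i),
    fun hS => wreathLike_free hC h hB hfree hS⟩⟩
  intro x _ hx
  exact Subtype.ext hx

end Pool.Agent.Results.MP_59dd5b_al.WreathLikeProducts
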